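import Pool.Agent.Helper73.HV.Base

/-!
# Module D2 of MP_a2630c_HV: upper slice bound, crude slice bounds
-/

open MeasureTheory Set Metric Real Filter Topology
open scoped RealInnerProductSpace ENNReal
open Pool.Agent.Helper16.Buoy (E)

namespace Pool.Agent.Helper94.HV.D2

open Pool.Agent.Helper73.HV

variable {m : ℕ}

/-- the squared norm of the coordinates -/
def nq (y : ℝ × (Fin m → ℝ)) : ℝ := y.1 ^ 2 + ∑ i, y.2 i ^ 2

theorem nq_nonneg (y : ℝ × (Fin m → ℝ)) : 0 ≤ nq y := by
  unfold nq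
  positivity

theorem norm_slc_zero (bs : OrthonormalBasis (Fin (m + 2)) ℝ (E (m + 2))) (y : ℝ × (Fin m → ℝ)) :
    ‖slc bs (0, y)‖ ^ 2 = nq y := by
  rw [norm_slc_sq, nq]
  ring

theorem int_gauss {c : ℝ} (hc : 0 < c) :
    Integrable (fun y : ℝ × (Fin m → ℝ) => y.1 ^ 2 * exp (-c * nq y)) := by
  refine (integrable_gauss_prod (m := m) hc).mono' ?_ (Eventually.of_forall fun y => ?_)
  · apply Continuous.aestronglyMeasurable
    unfold nq
    fun_prop
  · have h0 := nq_nonneg y
    rw [Real.norm_of_nonneg (by positivity)]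
    apply mul_le_mul_of_nonneg_right _ (exp_pos _).le
    have h1 : y.1 ^ 2 ≤ nq y := by
      unfold nq
      have : 0 ≤ ∑ i, y.2 i ^ 2 := by positivity
      linarith
    have h2 : nq y = y.1 ^ 2 + ∑ i, y.2 i ^ 2 := rfl
    rw [← h2]
    nlinarith

theorem cont_J {Ψ : E (m + 2) → ℝ} (hΨ : Continuous Ψ)
    (bs : OrthonormalBasis (Fin (m + 2)) ℝ (E (m + 2))) :
    Continuous (fun y : ℝ × (Fin m → ℝ) => y.1 ^ 2 * exp (-Ψ (slc bs (0, y)))) := by
  have h1 : Continuous (fun y : ℝ × (Fin m → ℝ) => slc bs (0, y)) :=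
    (continuous_slc bs).comp (by fun_prop)
  have h2 := hΨ.comp h1
  simp only [Function.comp_def] at h2
  fun_prop

theorem int_J {Ψ : E (m + 2) → ℝ} {a b : ℝ} (h : Wt Ψ a b)
    (bs : OrthonormalBasis (Fin (m + 2)) ℝ (E (m + 2))) :
    Integrable (fun y : ℝ × (Fin m → ℝ) => y.1 ^ 2 * exp (-Ψ (slc bs (0, y)))) := by
  refine (int_gauss h.apos).mono' (cont_J h.cont bs).aestronglyMeasurable
    (Eventually.of_forall fun y => ?_)
  rw [Real.norm_of_nonneg (by positivity)]
  apply mul_le_mul_of_nonneg_left _ (sq_nonneg _)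
  have h1 := h.exp_le (slc bs (0, y))
  rwa [norm_slc_zero] at h1

theorem slice_crude : S_slice_crude := by
  intro m Ψ a b h
  set c : ℝ := |b| + 1 with hc
  have hc0 : 0 < c := by positivity
  refine ⟨∫ y : ℝ × (Fin m → ℝ), y.1 ^ 2 * exp (-c * nq y),
    ∫ y : ℝ × (Fin m → ℝ), y.1 ^ 2 * exp (-a * nq y), ?_, ?_⟩
  · rw [integral_pos_iff_support_of_nonneg (fun y => by positivity) (int_gauss hc0)]
    have hopen : IsOpen {y : ℝ × (Fin m → ℝ) | y.1 ≠ 0} :=
      isOpen_ne.preimage continuous_fst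
    have hne : ({y : ℝ × (Fin m → ℝ) | y.1 ≠ 0}).Nonempty := ⟨(1, 0), by simp⟩
    refine (hopen.measure_pos volume hne).trans_le (measure_mono ?_)
    intro y hy
    have hy' : y.1 ≠ 0 := hy
    rw [Function.mem_support]
    exact mul_ne_zero (pow_ne_zero 2 hy') (exp_pos _).ne'
  · intro bs
    constructor
    · apply integral_mono (int_gauss hc0) (int_J h bs)
      intro y
      apply mul_le_mul_of_nonneg_left _ (sq_nonneg _)
      have h1 := h.le_exp (slc bs (0, y))
      rw [norm_slc_zero] at h1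
      refine le_trans ?_ h1
      rw [exp_le_exp]
      have h2 := nq_nonneg y
      have h3 := le_abs_self b
      nlinarith
    · apply integral_mono (int_J h bs) (int_gauss h.apos)
      intro y
      apply mul_le_mul_of_nonneg_left _ (sq_nonneg _)
      have h1 := h.exp_le (slc bs (0, y))
      rwa [norm_slc_zero] at h1

/-- reflection in the first coordinate -/
noncomputable def refl (m : ℕ) : (ℝ × ℝ × (Fin m → ℝ)) ≃ᵐ (ℝ × ℝ × (Fin m → ℝ)) :=
  MeasurableEquiv.prodCongr (MeasurableEquiv.neg ℝ) (MeasurableEquiv.refl _)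

theorem refl_apply (p : ℝ × ℝ × (Fin m → ℝ)) : refl m p = (-p.1, p.2) := rfl

theorem measurePreserving_refl : MeasurePreserving (refl m) volume volume :=
  (Measure.measurePreserving_neg (volume : Measure ℝ)).prod (MeasurePreserving.id volume)

theorem slice_up : S_slice_up := by
  intro m Ψ a b β Z h hβ hsd hI bs
  set φ : ℝ × ℝ × (Fin m → ℝ) → ℝ := fun p => p.2.1 ^ 2 * exp (-Ψ (slc bs p)) with hφ
  have hφi : Integrable φ := by
    have h1 := (integrable_slc bs).2 (h.integrable_sq (bs 1))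
    simpa only [inner_slc_one] using h1
  have hφZ : ∫ p, φ p = Z := by
    have h1 := hI (bs 1)
    rw [bs.norm_eq_one, integral_slc bs] at h1
    simp only [inner_slc_one] at h1
    simpa using h1
  have hri : Integrable (fun p => φ (refl m p)) :=
    (measurePreserving_refl.integrable_comp_emb (refl m).measurableEmbedding).2 hφi
  have hrZ : ∫ p, φ (refl m p) = Z := by
    rw [measurePreserving_refl.integral_comp (refl m).measurableEmbedding, hφZ]
  have hgi : Integrable (fun s : ℝ => exp (-(β / 2) * s ^ 2)) :=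
    integrable_exp_neg_mul_sq (by positivity)
  have hprod : Integrable (fun p : ℝ × ℝ × (Fin m → ℝ) =>
      exp (-(β / 2) * p.1 ^ 2) * (p.2.1 ^ 2 * exp (-Ψ (slc bs (0, p.2))))) :=
    hgi.mul_prod (int_J h bs)
  have hval : ∫ p : ℝ × ℝ × (Fin m → ℝ),
      exp (-(β / 2) * p.1 ^ 2) * (p.2.1 ^ 2 * exp (-Ψ (slc bs (0, p.2))))
      = √(π / (β / 2)) * JJ Ψ bs := by
    have h1 := integral_prod_mul (μ := (volume : Measure ℝ))
      (ν := (volume : Measure (ℝ × (Fin m → ℝ)))) (fun s : ℝ => exp (-(β / 2) * s ^ 2))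
      (fun y : ℝ × (Fin m → ℝ) => y.1 ^ 2 * exp (-Ψ (slc bs (0, y))))
    rw [integral_gaussian] at h1
    exact h1
  have hmain : √(π / (β / 2)) * JJ Ψ bs ≤ Z := by
    have h1 : ∫ p, (φ p + φ (refl m p)) / 2 = Z := by
      rw [integral_div, integral_add hφi hri, hφZ, hrZ]
      ring
    rw [← hval, ← h1]
    apply integral_mono hprod ((hφi.add hri).div_const 2)
    rintro ⟨s, y⟩
    simp only [hφ, refl_apply, Pi.add_apply]
    have h2 := hsd (slc bs (0, y)) (s • bs 0)
    have e1 : slc bs (0, y) + s • bs 0 = slc bs (s, y) := by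
      simp only [slc, zero_smul, zero_add]
      abel
    have e2 : slc bs (0, y) - s • bs 0 = slc bs (-s, y) := by
      simp only [slc, zero_smul, zero_add, neg_smul]
      abel
    unfold sd at h2
    rw [e1, e2, norm_smul, bs.norm_eq_one, mul_one, Real.norm_eq_abs, sq_abs] at h2
    set A := Ψ (slc bs (s, y)) with hA
    set B := Ψ (slc bs (-s, y)) with hB
    set C := Ψ (slc bs (0, y)) with hC
    have h3 : exp (-(β / 2) * s ^ 2) * exp (-C) ≤ exp (-(A / 2)) * exp (-(B / 2)) := by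
      rw [← exp_add, ← exp_add, exp_le_exp]
      linarith
    have h4 : 2 * (exp (-(A / 2)) * exp (-(B / 2))) ≤ exp (-A) + exp (-B) := by
      have e3 : exp (-A) = exp (-(A / 2)) ^ 2 := by
        rw [← exp_nat_mul]; congr 1; push_cast; ring
      have e4 : exp (-B) = exp (-(B / 2)) ^ 2 := by
        rw [← exp_nat_mul]; congr 1; push_cast; ring
      rw [e3, e4]
      nlinarith [sq_nonneg (exp (-(A / 2)) - exp (-(B / 2)))]
    have h5 : 0 ≤ y.1 ^ 2 := sq_nonneg _
    nlinarith
  have h1 : √(π / (β / 2)) = √(2 * π) / √β := by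
    rw [← Real.sqrt_div (by positivity)]
    congr 1
    field_simp
  rw [h1] at hmain
  have hs : 0 < √β := Real.sqrt_pos.2 hβ
  have h2 : √(2 * π) / √β * JJ Ψ bs = (√(2 * π) * JJ Ψ bs) / √β := by ring
  rw [h2, div_le_iff₀ hs] at hmain
  linarith

end Pool.Agent.Helper94.HV.D2
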