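import Pool.Agent.Helper73.HV.Base

/-!
# Module G of MP_a2630c_HV: `F u ≤ √2 F v` in isotropic position
-/

open MeasureTheory Set Metric Real Filter Topology
open scoped RealInnerProductSpace ENNReal
open Pool.Agent.Helper16.Buoy (E)

namespace Pool.Agent.Helper94.HV.G

open Pool.Agent.Helper73.HV

/-! ### real analysis -/

/-- a continuous midpoint concave function lies above its chords -/
theorem chord (f : ℝ → ℝ) (hf : Continuous f)
    (hm : ∀ x y, 0 ≤ x → 0 ≤ y → f x + f y ≤ 2 * f ((x + y) / 2)) (L x : ℝ) (hL : 0 < L)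
    (hx0 : 0 ≤ x) (hxL : x ≤ L) : f 0 + x / L * (f L - f 0) ≤ f x := by
  set g : ℝ → ℝ := fun x => f x - (f 0 + x / L * (f L - f 0)) with hg
  have hgc : Continuous g := by
    simp only [hg]
    fun_prop
  obtain ⟨x0, hx0m, hmin⟩ := isCompact_Icc.exists_isMinOn (s := Icc 0 L) ⟨0, by simp [hL.le]⟩
    hgc.continuousOn
  have hmin' : ∀ y, 0 ≤ y → y ≤ L → g x0 ≤ g y := fun y h1 h2 => hmin ⟨h1, h2⟩
  have hgm : ∀ x y, 0 ≤ x → 0 ≤ y → g x + g y ≤ 2 * g ((x + y) / 2) := by
    intro x y hx hy
    have h1 := hm x y hx hy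
    simp only [hg]
    have e : x / L * (f L - f 0) + y / L * (f L - f 0)
        = 2 * ((x + y) / 2 / L * (f L - f 0)) := by ring
    linarith
  have hg0 : g 0 = 0 := by simp [hg]
  have hgL : g L = 0 := by simp [hg, hL.ne']
  have key : 0 ≤ g x0 := by
    by_contra hneg
    rw [not_le] at hneg
    have h1 : 0 < x0 := by
      rcases hx0m.1.eq_or_lt with h | h
      · rw [← h, hg0] at hneg; exact absurd hneg (lt_irrefl _)
      · exact h
    have h2 : x0 < L := by
      rcases hx0m.2.eq_or_lt with h | h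
      · rw [h, hgL] at hneg; exact absurd hneg (lt_irrefl _)
      · exact h
    rcases le_total x0 (L - x0) with h | h
    · have h3 := hgm 0 (2 * x0) le_rfl (by linarith)
      have e : (0 + 2 * x0) / 2 = x0 := by ring
      rw [e, hg0] at h3
      have h4 := hmin' (2 * x0) (by linarith) (by linarith)
      linarith
    · have h3 := hgm L (2 * x0 - L) hL.le (by linarith)
      have e : (L + (2 * x0 - L)) / 2 = x0 := by ring
      rw [e, hgL] at h3
      have h4 := hmin' (2 * x0 - L) (by linarith) (by linarith)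
      linarith
  have h5 := hmin' x hx0 hxL
  have h6 : 0 ≤ g x := key.trans h5
  simp only [hg] at h6
  linarith

theorem four (f : ℝ → ℝ) (hf : Continuous f)
    (hm : ∀ x y, 0 ≤ x → 0 ≤ y → f x + f y ≤ 2 * f ((x + y) / 2)) (s t : ℝ) (hs : 0 < s)
    (ht : 0 < t) : f 0 + f (s + t) ≤ f s + f t := by
  have h1 := chord f hf hm (s + t) s (by linarith) hs.le (by linarith)
  have h2 := chord f hf hm (s + t) t (by linarith) ht.le (by linarith)
  have e : s / (s + t) * (f (s + t) - f 0) + t / (s + t) * (f (s + t) - f 0)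
      = f (s + t) - f 0 := by
    have : s + t ≠ 0 := by linarith
    field_simp
  linarith

/-- Fubini for the tail -/
theorem double_tail (D : ℝ → ℝ≥0∞) (hD : Measurable D) :
    ∫⁻ u in Ioi 0, D u * ENNReal.ofReal u = ∫⁻ s in Ioi (0 : ℝ), ∫⁻ t in Ioi (0 : ℝ), D (s + t) := by
  have h1 : ∀ s : ℝ, ∫⁻ t in Ioi (0 : ℝ), D (s + t) = ∫⁻ u, (Ioi s).indicator D u := by
    intro s
    rw [← lintegral_indicator measurableSet_Ioi,
      ← lintegral_add_left_eq_self (fun u => (Ioi s).indicator D u) s]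
    congr 1
    funext t
    by_cases ht : 0 < t
    · rw [indicator_of_mem (by exact ht), indicator_of_mem (by simpa using ht)]
    · rw [indicator_of_notMem (by exact ht), indicator_of_notMem (by simpa using ht)]
  simp only [h1]
  have h2 : ∀ s : ℝ, (Ioi (0 : ℝ)).indicator (fun s => ∫⁻ u, (Ioi s).indicator D u) s
      = ∫⁻ u, (Ioi (0 : ℝ)).indicator (fun s => (Ioi s).indicator D u) s := by
    intro s
    by_cases hs : s ∈ Ioi (0 : ℝ)
    · simp only [indicator_of_mem hs]
    · simp only [indicator_of_notMem hs, lintegral_zero]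
  have h2' : ∫⁻ s in Ioi (0 : ℝ), ∫⁻ u, (Ioi s).indicator D u
      = ∫⁻ s, ∫⁻ u, (Ioi (0 : ℝ)).indicator (fun s => (Ioi s).indicator D u) s := by
    rw [← lintegral_indicator measurableSet_Ioi]
    congr 1
    funext s
    exact h2 s
  rw [h2']
  have hmeas : Measurable (fun p : ℝ × ℝ =>
      (Ioi (0 : ℝ)).indicator (fun s => (Ioi s).indicator D p.2) p.1) := by
    have e : (fun p : ℝ × ℝ => (Ioi (0 : ℝ)).indicator (fun s => (Ioi s).indicator D p.2) p.1)
        = ({p : ℝ × ℝ | 0 < p.1 ∧ p.1 < p.2}).indicator (fun p => D p.2) := by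
      funext p
      by_cases h1 : 0 < p.1
      · by_cases h2 : p.1 < p.2
        · rw [indicator_of_mem (show p.1 ∈ Ioi (0 : ℝ) from h1),
            indicator_of_mem (show p.2 ∈ Ioi p.1 from h2), indicator_of_mem (by exact ⟨h1, h2⟩)]
        · rw [indicator_of_mem (show p.1 ∈ Ioi (0 : ℝ) from h1),
            indicator_of_notMem (show p.2 ∉ Ioi p.1 from h2),
            indicator_of_notMem (by exact fun h => h2 h.2)]
      · rw [indicator_of_notMem (show p.1 ∉ Ioi (0 : ℝ) from h1),
          indicator_of_notMem (by exact fun h => h1 h.1)]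
    rw [e]
    apply Measurable.indicator (hD.comp measurable_snd)
    exact (measurableSet_lt measurable_const measurable_fst).inter
      (measurableSet_lt measurable_fst measurable_snd)
  rw [lintegral_lintegral_swap hmeas.aemeasurable, ← lintegral_indicator measurableSet_Ioi]
  congr 1
  funext u
  have h3 : ∀ s : ℝ, (Ioi (0 : ℝ)).indicator (fun s => (Ioi s).indicator D u) s
      = (Ioo 0 u).indicator (fun _ => D u) s := by
    intro s
    by_cases h1 : 0 < s
    · by_cases h2 : s < u
      · rw [indicator_of_mem (show s ∈ Ioi (0 : ℝ) from h1),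
          indicator_of_mem (show u ∈ Ioi s from h2), indicator_of_mem (by exact ⟨h1, h2⟩)]
      · rw [indicator_of_mem (show s ∈ Ioi (0 : ℝ) from h1),
          indicator_of_notMem (show u ∉ Ioi s from h2),
          indicator_of_notMem (by exact fun h => h2 h.2)]
    · rw [indicator_of_notMem (show s ∉ Ioi (0 : ℝ) from h1),
        indicator_of_notMem (by exact fun h => h1 h.1)]
  simp only [h3]
  rw [lintegral_indicator measurableSet_Ioo, lintegral_const, Measure.restrict_apply
    MeasurableSet.univ, univ_inter, Real.volume_Ioo, sub_zero]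
  by_cases hu : 0 < u
  · rw [indicator_of_mem (show u ∈ Ioi (0 : ℝ) from hu)]
  · rw [indicator_of_notMem (show u ∉ Ioi (0 : ℝ) from hu),
      ENNReal.ofReal_of_nonpos (not_lt.1 hu), mul_zero]

/-! ### Prekopa-Leindler on `E n` -/

theorem pl_E {n : ℕ} {f g h : E n → ℝ≥0∞} (hf : Measurable f) (hg : Measurable g)
    (hh : Measurable h) (H : ∀ x y, f x * g y ≤ h ((1 / 2 : ℝ) • (x + y)) ^ 2) :
    (∫⁻ x, f x) * (∫⁻ x, g x) ≤ (∫⁻ x, h x) ^ 2 := by
  have hmp := PiLp.volume_preserving_toLp (Fin n)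
  have hmeas : Measurable (WithLp.toLp 2 : (Fin n → ℝ) → E n) := hmp.measurable
  have key := Pool.Agent.Helper73.PL.pl_midpoint n (f := fun y => f (WithLp.toLp 2 y))
    (g := fun y => g (WithLp.toLp 2 y)) (h := fun y => h (WithLp.toLp 2 y))
    (hf.comp hmeas) (hg.comp hmeas) (hh.comp hmeas) (by
      intro x y
      refine (H _ _).trans (le_of_eq ?_)
      congr 2
      ext i
      simp
      ring)
  rwa [hmp.lintegral_comp hf, hmp.lintegral_comp hg, hmp.lintegral_comp hh] at key

/-! ### the tail -/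

section Tail

variable {n : ℕ} (Ψ : E n → ℝ) (v : E n)

/-- the measure with density `exp (-Ψ)` -/
noncomputable def mu : Measure (E n) := volume.withDensity (fun x => ENNReal.ofReal (exp (-Ψ x)))

/-- the tail -/
noncomputable def T (s : ℝ) : ℝ≥0∞ := mu Ψ {x | s ≤ inner ℝ v x}

variable {Ψ v} {a b : ℝ}

theorem measurableSet_half (s : ℝ) : MeasurableSet {x : E n | s ≤ inner ℝ v x} :=
  measurableSet_le measurable_const (by fun_prop)

theorem meas_dens (h : Wt Ψ a b) : Measurable (fun x => ENNReal.ofReal (exp (-Ψ x))) :=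
  (h.cont_exp.measurable).ennreal_ofReal

theorem T_eq (s : ℝ) : T Ψ v s = ∫⁻ x, ({x : E n | s ≤ inner ℝ v x}).indicator
    (fun x => ENNReal.ofReal (exp (-Ψ x))) x := by
  rw [T, mu, withDensity_apply _ (measurableSet_half s), lintegral_indicator (measurableSet_half s)]

theorem mu_univ_lt (h : Wt Ψ a b) : mu Ψ univ < ∞ := by
  rw [mu, withDensity_apply _ MeasurableSet.univ, Measure.restrict_univ]
  exact h.integrable_exp.lintegral_lt_top

theorem T_lt (h : Wt Ψ a b) (s : ℝ) : T Ψ v s < ∞ :=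
  (measure_mono (subset_univ _)).trans_lt (mu_univ_lt h)

theorem T_anti : Antitone (T Ψ v) := by
  intro s t hst
  apply measure_mono
  intro x hx
  exact hst.trans hx

theorem T_pl (h : Wt Ψ a b) (hc : ∀ x z, 0 ≤ sd Ψ x z) (s t : ℝ) :
    T Ψ v s * T Ψ v t ≤ T Ψ v ((s + t) / 2) ^ 2 := by
  rw [T_eq, T_eq, T_eq]
  apply pl_E
  · exact (meas_dens h).indicator (measurableSet_half s)
  · exact (meas_dens h).indicator (measurableSet_half t)
  · exact (meas_dens h).indicator (measurableSet_half _)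
  · intro x y
    by_cases hx : s ≤ inner ℝ v x
    · by_cases hy : t ≤ inner ℝ v y
      · have hz : (s + t) / 2 ≤ inner ℝ v ((1 / 2 : ℝ) • (x + y)) := by
          rw [inner_smul_right, inner_add_right]
          linarith
        rw [indicator_of_mem (show x ∈ {x : E n | s ≤ inner ℝ v x} from hx),
          indicator_of_mem (show y ∈ {x : E n | t ≤ inner ℝ v x} from hy),
          indicator_of_mem (show (1 / 2 : ℝ) • (x + y) ∈ {x : E n | (s + t) / 2 ≤ inner ℝ v x}
            from hz), ← ENNReal.ofReal_mul (exp_pos _).le, ← ENNReal.ofReal_pow (exp_pos _).le]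
        apply ENNReal.ofReal_le_ofReal
        rw [← exp_add, ← exp_nat_mul, exp_le_exp]
        have h1 := hc ((1 / 2 : ℝ) • (x + y)) ((1 / 2 : ℝ) • (x - y))
        unfold sd at h1
        have e1 : (1 / 2 : ℝ) • (x + y) + (1 / 2 : ℝ) • (x - y) = x := by
          rw [← smul_add]
          have : x + y + (x - y) = (2 : ℝ) • x := by rw [two_smul]; abel
          rw [this, smul_smul]; norm_num
        have e2 : (1 / 2 : ℝ) • (x + y) - (1 / 2 : ℝ) • (x - y) = y := by
          rw [← smul_sub]
          have : x + y - (x - y) = (2 : ℝ) • y := by rw [two_smul]; abel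
          rw [this, smul_smul]; norm_num
        rw [e1, e2] at h1
        push_cast
        linarith
      · rw [indicator_of_notMem (show y ∉ {x : E n | t ≤ inner ℝ v x} from hy), mul_zero]
        exact zero_le
    · rw [indicator_of_notMem (show x ∉ {x : E n | s ≤ inner ℝ v x} from hx), zero_mul]
      exact zero_le

/-- hyperplanes are null sets -/
theorem hyper_null (hv : v ≠ 0) (s : ℝ) : volume {x : E n | inner ℝ v x = s} = 0 := by
  set A : AffineSubspace ℝ (E n) :=
    AffineSubspace.mk' ((s / ‖v‖ ^ 2) • v) (LinearMap.ker (innerₛₗ ℝ v)) with hA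
  have hvv : ‖v‖ ^ 2 ≠ 0 := by
    have : ‖v‖ ≠ 0 := norm_ne_zero_iff.2 hv
    positivity
  have hmem : ∀ x, x ∈ A ↔ inner ℝ v x = s := by
    intro x
    rw [hA, AffineSubspace.mem_mk', vsub_eq_sub, LinearMap.mem_ker, innerₛₗ_apply_apply, inner_sub_right,
      inner_smul_right, real_inner_self_eq_norm_sq, div_mul_cancel₀ _ hvv, sub_eq_zero]
  have hset : {x : E n | inner ℝ v x = s} = (A : Set (E n)) := by
    ext x
    exact (hmem x).symm
  rw [hset]
  apply Measure.addHaar_affineSubspace
  intro htop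
  have h1 : ((s + 1) / ‖v‖ ^ 2) • v ∈ A := by rw [htop]; exact AffineSubspace.mem_top ℝ _ _
  rw [hmem, inner_smul_right, real_inner_self_eq_norm_sq, div_mul_cancel₀ _ hvv] at h1
  linarith

theorem T_toReal (h : Wt Ψ a b) (s : ℝ) : (T Ψ v s).toReal
    = ∫ x, ({x : E n | s ≤ inner ℝ v x}).indicator (fun x => exp (-Ψ x)) x := by
  rw [T_eq, integral_eq_lintegral_of_nonneg_ae]
  · congr 2
    funext x
    by_cases hx : x ∈ {x : E n | s ≤ inner ℝ v x}
    · rw [indicator_of_mem hx, indicator_of_mem hx]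
    · rw [indicator_of_notMem hx, indicator_of_notMem hx, ENNReal.ofReal_zero]
  · exact Eventually.of_forall fun x => indicator_nonneg (fun _ _ => (exp_pos _).le) x
  · exact (h.cont_exp.measurable.indicator (measurableSet_half s)).aestronglyMeasurable

theorem T_cont (h : Wt Ψ a b) (hv : v ≠ 0) : Continuous (fun s => (T Ψ v s).toReal) := by
  simp only [T_toReal h]
  rw [continuous_iff_continuousAt]
  intro s0
  apply continuousAt_of_dominated (bound := fun x => exp (-Ψ x))
  · exact Eventually.of_forall fun s =>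
      (h.cont_exp.measurable.indicator (measurableSet_half s)).aestronglyMeasurable
  · refine Eventually.of_forall fun s => Eventually.of_forall fun x => ?_
    rw [norm_indicator_eq_indicator_norm]
    refine (indicator_le_self' (fun _ _ => norm_nonneg _) x).trans ?_
    rw [Real.norm_of_nonneg (exp_pos _).le]
  · exact h.integrable_exp
  · have h1 : ∀ᵐ x : E n, inner ℝ v x ≠ s0 := by
      rw [ae_iff]
      simpa using hyper_null hv s0
    filter_upwards [h1] with x hx
    rcases lt_or_gt_of_ne hx with hlt | hgt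
    · have h2 : ∀ᶠ s in 𝓝 s0, inner ℝ v x < s := eventually_gt_nhds hlt
      apply ContinuousAt.congr (f := fun _ => (0 : ℝ)) continuousAt_const
      filter_upwards [h2] with s hs
      rw [indicator_of_notMem]
      simpa using hs
    · have h2 : ∀ᶠ s in 𝓝 s0, s < inner ℝ v x := eventually_lt_nhds hgt
      apply ContinuousAt.congr (f := fun _ => exp (-Ψ x)) continuousAt_const
      filter_upwards [h2] with s hs
      rw [indicator_of_mem]
      exact hs.le

theorem T_pos (h : Wt Ψ a b) (hv : v ≠ 0) (s : ℝ) : 0 < (T Ψ v s).toReal := by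
  apply ENNReal.toReal_pos _ (T_lt h s).ne
  intro h0
  rw [T, mu, withDensity_apply_eq_zero' (meas_dens h).aemeasurable] at h0
  have h1 : {x | ENNReal.ofReal (exp (-Ψ x)) ≠ 0} ∩ {x : E n | s ≤ inner ℝ v x}
      = {x : E n | s ≤ inner ℝ v x} := by
    apply inter_eq_right.2
    intro x _
    simp [exp_pos]
  rw [h1] at h0
  have hopen : IsOpen {x : E n | s < inner ℝ v x} := isOpen_lt continuous_const (by fun_prop)
  have hvv : ‖v‖ ^ 2 ≠ 0 := by
    have : ‖v‖ ≠ 0 := norm_ne_zero_iff.2 hv
    positivity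
  have hne : ({x : E n | s < inner ℝ v x}).Nonempty := by
    refine ⟨((s + 1) / ‖v‖ ^ 2) • v, ?_⟩
    show s < inner ℝ v (((s + 1) / ‖v‖ ^ 2) • v)
    rw [inner_smul_right, real_inner_self_eq_norm_sq, div_mul_cancel₀ _ hvv]
    linarith
  have h2 := hopen.measure_pos volume hne
  have h3 : volume {x : E n | s < inner ℝ v x} ≤ volume {x : E n | s ≤ inner ℝ v x} :=
    measure_mono fun x hx => le_of_lt (show s < inner ℝ v x from hx)
  rw [h0] at h3
  exact absurd h2 (not_lt.2 h3)

theorem T_four (h : Wt Ψ a b) (hc : ∀ x z, 0 ≤ sd Ψ x z) (hv : v ≠ 0) (s t : ℝ) (hs : 0 < s)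
    (ht : 0 < t) : T Ψ v 0 * T Ψ v (s + t) ≤ T Ψ v s * T Ψ v t := by
  have hp := T_pos h hv
  have hfin := fun s => (T_lt (v := v) h s).ne
  have key := four (fun s => Real.log (T Ψ v s).toReal)
    ((T_cont h hv).log fun s => (hp s).ne') (by
      intro x y _ _
      rw [← Real.log_mul (hp x).ne' (hp y).ne']
      have h1 := T_pl (v := v) h hc x y
      have h2 := (ENNReal.toReal_le_toReal (ENNReal.mul_ne_top (hfin x) (hfin y))
        (ENNReal.pow_ne_top (hfin _))).2 h1
      rw [ENNReal.toReal_mul, ENNReal.toReal_pow] at h2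
      have h3 := Real.log_le_log (mul_pos (hp x) (hp y)) h2
      rw [Real.log_pow] at h3
      push_cast at h3
      exact h3) s t hs ht
  rw [← Real.log_mul (hp _).ne' (hp _).ne', ← Real.log_mul (hp _).ne' (hp _).ne',
    Real.log_le_log_iff (mul_pos (hp _) (hp _)) (mul_pos (hp _) (hp _)),
    ← ENNReal.toReal_mul, ← ENNReal.toReal_mul,
    ENNReal.toReal_le_toReal (ENNReal.mul_ne_top (hfin _) (hfin _))
      (ENNReal.mul_ne_top (hfin _) (hfin _))] at key
  exact key

theorem mu_neg (h : Wt Ψ a b) {S : Set (E n)} (hS : MeasurableSet S) :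
    mu Ψ (Neg.neg ⁻¹' S) = mu Ψ S := by
  have hS' : MeasurableSet (Neg.neg ⁻¹' S) := measurable_neg hS
  rw [mu, withDensity_apply _ hS', withDensity_apply _ hS, ← lintegral_indicator hS',
    ← lintegral_indicator hS,
    ← lintegral_neg_eq_self (μ := volume)
      (fun x => S.indicator (fun x => ENNReal.ofReal (exp (-Ψ x))) x)]
  congr 1
  funext x
  by_cases hx : x ∈ Neg.neg ⁻¹' S
  · rw [indicator_of_mem hx, indicator_of_mem (show -x ∈ S from hx), h.even]
  · rw [indicator_of_notMem hx, indicator_of_notMem (show -x ∉ S from hx)]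

theorem mu_low (h : Wt Ψ a b) (s : ℝ) : mu Ψ {x : E n | inner ℝ v x ≤ -s} = T Ψ v s := by
  rw [T, ← mu_neg h (measurableSet_half s)]
  congr 1
  ext x
  simp only [mem_ofPred_eq, mem_preimage, inner_neg_right]
  constructor <;> intro h <;> linarith

theorem mu_univ_le (h : Wt Ψ a b) : mu Ψ (univ : Set (E n)) ≤ 2 * T Ψ v 0 := by
  have h1 : (univ : Set (E n)) ⊆ {x : E n | inner ℝ v x ≤ -0} ∪ {x : E n | 0 ≤ inner ℝ v x} := by
    intro x _
    rcases le_total (inner ℝ v x) 0 with h | h
    · left; simpa using h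
    · right; exact h
  refine (measure_mono h1).trans ((measure_union_le _ _).trans (le_of_eq ?_))
  rw [mu_low h 0, two_mul]
  rfl

theorem mu_abs (h : Wt Ψ a b) (s : ℝ) (hs : 0 < s) :
    mu Ψ {x : E n | s ≤ |inner ℝ v x|} = 2 * T Ψ v s := by
  have h1 : {x : E n | s ≤ |inner ℝ v x|}
      = {x : E n | inner ℝ v x ≤ -s} ∪ {x : E n | s ≤ inner ℝ v x} := by
    ext x
    simp only [mem_ofPred_eq, mem_union, le_abs]
    constructor
    · rintro (h | h)
      · exact Or.inr h
      · exact Or.inl (by linarith)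
    · rintro (h | h)
      · exact Or.inr (by linarith)
      · exact Or.inl h
  rw [h1, measure_union _ (measurableSet_half s), mu_low h, two_mul]
  · rfl
  · rw [Set.disjoint_left]
    intro x hx hx'
    simp only [mem_ofPred_eq] at hx hx'
    linarith

theorem lint_mu (h : Wt Ψ a b) (φ : E n → ℝ) (hφ : Measurable φ) (h0 : ∀ x, 0 ≤ φ x)
    (hi : Integrable (fun x => φ x * exp (-Ψ x))) :
    ∫⁻ x, ENNReal.ofReal (φ x) ∂(mu Ψ) = ENNReal.ofReal (∫ x, φ x * exp (-Ψ x)) := by
  rw [mu, lintegral_withDensity_eq_lintegral_mul _ (meas_dens h) hφ.ennreal_ofReal,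
    ofReal_integral_eq_lintegral_ofReal hi
      (Eventually.of_forall fun x => mul_nonneg (h0 x) (exp_pos _).le)]
  congr 1
  funext x
  rw [Pi.mul_apply, ENNReal.ofReal_mul (h0 x), mul_comm]

/-- `E a² ≤ 2 (E |a|)²` -/
theorem moments (h : Wt Ψ a b) (hc : ∀ x z, 0 ≤ sd Ψ x z) (hv : v ≠ 0) :
    (∫ x, exp (-Ψ x)) * (∫ x, (inner ℝ v x) ^ 2 * exp (-Ψ x)) ≤ 2 * FF Ψ v ^ 2 := by
  set D : ℝ → ℝ≥0∞ := fun s => 2 * T Ψ v s with hD
  have hDm : Measurable D := (T_anti.measurable).const_mul 2
  have hF0 : 0 ≤ FF Ψ v := integral_nonneg fun x => mul_nonneg (abs_nonneg _) (exp_pos _).le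
  -- first moment
  have h1 : ENNReal.ofReal (FF Ψ v) = ∫⁻ t in Ioi 0, D t := by
    rw [FF, ← lint_mu h (fun x => |inner ℝ v x|) (by fun_prop) (fun _ => abs_nonneg _)
      (h.integrable_abs v), lintegral_eq_lintegral_meas_le (mu Ψ)
      (Eventually.of_forall fun x => abs_nonneg _) (by fun_prop)]
    apply setLIntegral_congr_fun measurableSet_Ioi
    intro t ht
    exact mu_abs h t ht
  have hDo : Measurable (fun t : ℝ => D t * ENNReal.ofReal t) := hDm.mul ENNReal.measurable_ofReal
  -- second moment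
  have h2 : ENNReal.ofReal (∫ x, (inner ℝ v x) ^ 2 * exp (-Ψ x))
      = 2 * ∫⁻ t in Ioi 0, D t * ENNReal.ofReal t := by
    have h3 := lintegral_comp_eq_lintegral_meas_le_mul (mu Ψ)
      (f := fun x => |inner ℝ v x|) (g := fun t => 2 * t)
      (Eventually.of_forall fun x => abs_nonneg _) (by fun_prop)
      (fun t _ => (by fun_prop : Continuous fun t : ℝ => 2 * t).intervalIntegrable _ _)
      ((ae_restrict_iff' measurableSet_Ioi).2 (Eventually.of_forall fun t ht => by
        have : 0 < t := ht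
        positivity))
    have e1 : ∀ x : E n, ∫ t in (0 : ℝ)..|inner ℝ v x|, 2 * t = (inner ℝ v x) ^ 2 := by
      intro x
      rw [intervalIntegral.integral_const_mul, integral_id]
      have := sq_abs (inner ℝ v x)
      linarith
    simp only [e1] at h3
    rw [← lint_mu h (fun x => (inner ℝ v x) ^ 2) (by fun_prop) (fun _ => sq_nonneg _)
      (h.integrable_sq v), h3, ← lintegral_const_mul _ hDo]
    apply setLIntegral_congr_fun measurableSet_Ioi
    intro t ht
    simp only
    rw [mu_abs h t ht, ENNReal.ofReal_mul (by norm_num)]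
    simp only [hD, ENNReal.ofReal_ofNat]
    ring
  have h3 : ENNReal.ofReal (∫ x, exp (-Ψ x)) = mu Ψ univ := by
    have := lint_mu h (fun _ => 1) measurable_const (fun _ => zero_le_one)
      (by simpa using h.integrable_exp)
    simp only [one_mul, ENNReal.ofReal_one, lintegral_one] at this
    exact this.symm
  have h4 : mu Ψ univ * ∫⁻ t in Ioi 0, D t * ENNReal.ofReal t
      ≤ (∫⁻ t in Ioi 0, D t) * ∫⁻ t in Ioi 0, D t := by
    rw [double_tail D hDm]
    have hm1 : Measurable (fun s => ∫⁻ t in Ioi (0 : ℝ), D (s + t)) :=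
      Measurable.lintegral_prod_right' (f := fun p : ℝ × ℝ => D (p.1 + p.2))
        (hDm.comp (measurable_fst.add measurable_snd))
    rw [← lintegral_const_mul _ hm1, ← lintegral_mul_const _ hDm]
    apply setLIntegral_mono (hDm.mul_const _)
    intro s hs
    have hDs : Measurable (fun t : ℝ => D (s + t)) := hDm.comp (measurable_const_add s)
    rw [← lintegral_const_mul _ hDs, ← lintegral_const_mul _ hDm]
    apply setLIntegral_mono (hDm.const_mul _)
    intro t ht
    have h5 := T_four (v := v) h hc hv s t hs ht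
    have h6 := mu_univ_le (v := v) h
    calc mu Ψ univ * D (s + t) ≤ (2 * T Ψ v 0) * D (s + t) := by gcongr
      _ = 4 * (T Ψ v 0 * T Ψ v (s + t)) := by simp only [hD]; ring
      _ ≤ 4 * (T Ψ v s * T Ψ v t) := by gcongr
      _ = D s * D t := by simp only [hD]; ring
  have hM0 : 0 ≤ ∫ x, exp (-Ψ x) := integral_nonneg fun x => (exp_pos _).le
  have h5 : ENNReal.ofReal ((∫ x, exp (-Ψ x)) * (∫ x, (inner ℝ v x) ^ 2 * exp (-Ψ x)))
      ≤ ENNReal.ofReal (2 * FF Ψ v ^ 2) := by
    rw [ENNReal.ofReal_mul hM0, ENNReal.ofReal_mul (by norm_num), h3, h2,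
      ENNReal.ofReal_pow hF0, h1, ENNReal.ofReal_ofNat]
    calc mu Ψ univ * (2 * ∫⁻ t in Ioi 0, D t * ENNReal.ofReal t)
        = 2 * (mu Ψ univ * ∫⁻ t in Ioi 0, D t * ENNReal.ofReal t) := by ring
      _ ≤ 2 * ((∫⁻ t in Ioi 0, D t) * ∫⁻ t in Ioi 0, D t) := by gcongr
      _ = _ := by ring
  exact (ENNReal.ofReal_le_ofReal_iff (by positivity)).1 h5

/-- Cauchy-Schwarz -/
theorem cs (h : Wt Ψ a b) (u : E n) : FF Ψ u ^ 2
    ≤ (∫ x, exp (-Ψ x)) * (∫ x, (inner ℝ u x) ^ 2 * exp (-Ψ x)) := by
  set M := ∫ x, exp (-Ψ x) with hM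
  set S := ∫ x, (inner ℝ u x) ^ 2 * exp (-Ψ x) with hS
  set F := FF Ψ u with hF
  have hMpos : 0 < M := by
    rw [hM, integral_pos_iff_support_of_nonneg (fun x => (exp_pos _).le) h.integrable_exp]
    have : Function.support (fun x : E n => exp (-Ψ x)) = univ := by
      ext x
      simp [(exp_pos (-Ψ x)).ne']
    rw [this]
    exact isOpen_univ.measure_pos _ univ_nonempty
  have key : ∀ c : ℝ, 0 ≤ c ^ 2 * S - 2 * c * F * 1 + 1 * M := by
    intro c
    have h1 : ∫ x, (c * |inner ℝ u x| - 1) ^ 2 * exp (-Ψ x)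
        = c ^ 2 * S - 2 * c * F + M := by
      have e : (fun x => (c * |inner ℝ u x| - 1) ^ 2 * exp (-Ψ x))
          = fun x => c ^ 2 * ((inner ℝ u x) ^ 2 * exp (-Ψ x))
            - 2 * c * (|inner ℝ u x| * exp (-Ψ x)) + exp (-Ψ x) := by
        funext x
        rw [← sq_abs (inner ℝ u x)]
        ring
      rw [e, integral_add, integral_sub, integral_const_mul, integral_const_mul]
      · rfl
      · exact (h.integrable_sq u).const_mul _
      · exact (h.integrable_abs u).const_mul _
      · exact ((h.integrable_sq u).const_mul _).sub ((h.integrable_abs u).const_mul _)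
      · exact h.integrable_exp
    have h2 : 0 ≤ ∫ x, (c * |inner ℝ u x| - 1) ^ 2 * exp (-Ψ x) :=
      integral_nonneg fun x => mul_nonneg (sq_nonneg _) (exp_pos _).le
    rw [h1] at h2
    linarith
  have hF0 : 0 ≤ F := integral_nonneg fun x => mul_nonneg (abs_nonneg _) (exp_pos _).le
  have hS0 : 0 ≤ S := integral_nonneg fun x => mul_nonneg (sq_nonneg _) (exp_pos _).le
  rcases hF0.eq_or_lt with h0 | h0
  · rw [← h0, zero_pow (by norm_num)]
    exact mul_nonneg hMpos.le hS0
  · have h1 := key (M / F)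
    have h2 : (M / F) ^ 2 * S - 2 * (M / F) * F * 1 + 1 * M = M * (M * S - F ^ 2) / F ^ 2 := by
      field_simp
      ring
    rw [h2] at h1
    have h3 : 0 ≤ M * (M * S - F ^ 2) := by
      by_contra hneg
      rw [not_le] at hneg
      have := div_neg_of_neg_of_pos hneg (by positivity : 0 < F ^ 2)
      linarith
    have h4 : 0 ≤ M * S - F ^ 2 := nonneg_of_mul_nonneg_right h3 hMpos
    linarith

end Tail

theorem univ_bd : S_univ_bd := by
  intro m Ψ a b Z h hc hI u v hu hv
  have hv0 : v ≠ 0 := by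
    intro h0
    rw [h0, norm_zero] at hv
    exact zero_ne_one hv
  have h1 := cs h u
  have h2 := moments h hc hv0
  have e1 := hI u
  have e2 := hI v
  rw [hu] at e1
  rw [hv] at e2
  rw [e1] at h1
  rw [e2] at h2
  have hF0 : 0 ≤ FF Ψ v := integral_nonneg fun x => mul_nonneg (abs_nonneg _) (exp_pos _).le
  have h3 : FF Ψ u ^ 2 ≤ (√2 * FF Ψ v) ^ 2 := by
    rw [mul_pow, Real.sq_sqrt (by norm_num)]
    linarith
  exact (abs_le_of_sq_le_sq' h3 (by positivity)).2

end Pool.Agent.Helper94.HV.G
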